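import Mathlib
import Pool.Agent.W744.GL.Stm

set_option autoImplicit false

/-!
# GL-SEPM (helper237)
-/

open Metric Set Filter Topology Complex

namespace Pool.Agent.W237.GL.SEPM

open Pool.Agent.Helper503.Gp (HI IsChar Gl bfac cay PH BlaOn BF mu)
open Pool.Agent.W744.GL

theorem sum_nat (N : ℕ) (hN : 0 < N) (T : Finset ℕ) (hT : ∀ m ∈ T, N ≤ m) :
    ∑ m ∈ T, ((m : ℝ) ^ 2)⁻¹ ≤ 2 / N := by
  obtain ⟨M, hM⟩ := T.bddAbove
  have hsub : T ⊆ Finset.Ioo (N - 1) (M + 1) := by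
    intro m hm
    have h1 := hT m hm
    have h2 := hM hm
    rw [Finset.mem_Ioo]
    omega
  have h3 := sum_Ioo_inv_sq_le (α := ℝ) (N - 1) (M + 1)
  have h4 : ((N - 1 : ℕ) : ℝ) + 1 = N := by
    have : N - 1 + 1 = N := by omega
    exact_mod_cast this
  rw [h4] at h3
  exact (Finset.sum_le_sum_of_subset_of_nonneg hsub (fun _ _ _ => by positivity)).trans h3

theorem sum_int (N : ℕ) (hN : 0 < N) (T : Finset ℤ) (hT : ∀ m ∈ T, (N : ℤ) ≤ |m|) :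
    ∑ m ∈ T, ((m : ℝ) ^ 2)⁻¹ ≤ 4 / N := by
  classical
  have key : ∀ T' : Finset ℤ, (∀ m ∈ T', (N : ℤ) ≤ |m|) → Set.InjOn Int.natAbs (T' : Set ℤ) →
      ∑ m ∈ T', ((m : ℝ) ^ 2)⁻¹ ≤ 2 / N := by
    intro T' hT' hinj
    have h1 : ∑ m ∈ T', ((m : ℝ) ^ 2)⁻¹ = ∑ m ∈ T'.image Int.natAbs, ((m : ℝ) ^ 2)⁻¹ := by
      rw [Finset.sum_image hinj]
      apply Finset.sum_congr rfl
      intro m _
      congr 1
      have : ((m.natAbs : ℤ) : ℝ) ^ 2 = (m : ℝ) ^ 2 := by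
        rw [← Int.cast_pow, ← Int.cast_pow, Int.natAbs_sq]
      rw [← this]
      simp
    rw [h1]
    apply sum_nat N hN
    intro m hm
    rw [Finset.mem_image] at hm
    obtain ⟨n, hn, rfl⟩ := hm
    have := hT' n hn
    rw [Int.abs_eq_natAbs] at this
    exact_mod_cast this
  rw [← Finset.sum_filter_add_sum_filter_not T (fun m => 0 ≤ m)]
  have h1 := key (T.filter (fun m => 0 ≤ m)) (fun m hm => hT m (Finset.mem_filter.mp hm).1) (by
    intro a ha b hb hab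
    have ha' := (Finset.mem_filter.mp (Finset.mem_coe.mp ha)).2
    have hb' := (Finset.mem_filter.mp (Finset.mem_coe.mp hb)).2
    omega)
  have h2 := key (T.filter (fun m => ¬ 0 ≤ m)) (fun m hm => hT m (Finset.mem_filter.mp hm).1) (by
    intro a ha b hb hab
    have ha' := (Finset.mem_filter.mp (Finset.mem_coe.mp ha)).2
    have hb' := (Finset.mem_filter.mp (Finset.mem_coe.mp hb)).2
    omega)
  have h3 : (4 : ℝ) / N = 2 / N + 2 / N := by ring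
  rw [h3]
  exact add_le_add h1 h2

/-- the constant -/
noncomputable def C1 (ζ ζ₀ : ℂ) : ℝ :=
  4 * ζ.im * ζ₀.im * ((ζ.re - ζ₀.re) ^ 2 + (ζ.im + ζ₀.im) ^ 2) / (ζ.im + ζ₀.im) ^ 2

theorem C1_pos (ζ ζ₀ : ℂ) (h : 0 < ζ.im) (h₀ : 0 < ζ₀.im) : 0 < C1 ζ ζ₀ := by
  unfold C1
  positivity

theorem PH_bound (ζ ζ₀ : ℂ) (h : 0 < ζ.im) (h₀ : 0 < ζ₀.im) (n a : ℤ) (hna : n - a ≠ 0) :
    PH (lat ζ n) ((a : ℂ) + ζ₀) ≤ C1 ζ ζ₀ * (((n - a : ℤ) : ℝ) ^ 2)⁻¹ := by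
  have hY : 0 < ζ.im + ζ₀.im := by linarith
  have hm : (0 : ℝ) < ((n - a : ℤ) : ℝ) ^ 2 := by
    have : ((n - a : ℤ) : ℝ) ≠ 0 := by exact_mod_cast hna
    positivity
  unfold PH C1 lat
  simp only [Complex.add_im, Complex.add_re, Complex.intCast_im, Complex.intCast_re, zero_add]
  rw [← div_eq_mul_inv, div_div, div_le_div_iff₀ (by positivity) (by positivity)]
  have hk : (ζ.im + ζ₀.im) ^ 2 * ((n - a : ℤ) : ℝ) ^ 2
      ≤ ((ζ.re - ζ₀.re) ^ 2 + (ζ.im + ζ₀.im) ^ 2)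
        * (((n : ℝ) + ζ.re - ((a : ℝ) + ζ₀.re)) ^ 2 + (ζ.im + ζ₀.im) ^ 2) := by
    push_cast
    nlinarith [sq_nonneg ((ζ.re - ζ₀.re) * ((n : ℝ) + ζ.re - ((a : ℝ) + ζ₀.re)) + (ζ.im + ζ₀.im) ^ 2)]
  have hp : 0 ≤ 4 * ζ.im * ζ₀.im := by positivity
  calc 4 * ζ.im * ζ₀.im * ((ζ.im + ζ₀.im) ^ 2 * ((n - a : ℤ) : ℝ) ^ 2)
      ≤ 4 * ζ.im * ζ₀.im * (((ζ.re - ζ₀.re) ^ 2 + (ζ.im + ζ₀.im) ^ 2)
        * (((n : ℝ) + ζ.re - ((a : ℝ) + ζ₀.re)) ^ 2 + (ζ.im + ζ₀.im) ^ 2)) :=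
        mul_le_mul_of_nonneg_left hk hp
    _ = _ := by ring

theorem PH_nonneg (ζ ζ₀ : ℂ) (h : 0 < ζ.im) (h₀ : 0 < ζ₀.im) (n a : ℤ) :
    0 ≤ PH (lat ζ n) ((a : ℂ) + ζ₀) := by
  unfold PH lat
  simp only [Complex.add_im, Complex.add_re, Complex.intCast_im, Complex.intCast_re, zero_add]
  positivity

theorem summ (ζ : ℂ) (h : 0 < ζ.im) : Summable (fun n : ℤ => PH (lat ζ n) I) := by
  have hI : ∀ n : ℤ, PH (lat ζ n) I = PH (lat ζ n) (((0 : ℤ) : ℂ) + I) := by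
    intro n; simp
  have hImI : 0 < I.im := by simp
  have h1 : Summable (fun n : ℤ => C1 ζ I * ((n : ℝ) ^ 2)⁻¹
      + (if n = 0 then PH (lat ζ 0) I else 0)) := by
    apply Summable.add
    · apply Summable.mul_left
      have := (Real.summable_one_div_int_pow (p := 2)).mpr (by norm_num)
      simpa using this
    · exact (hasSum_ite_eq (0 : ℤ) (PH (lat ζ 0) I)).summable
  apply Summable.of_nonneg_of_le _ _ h1
  · intro n
    rw [hI]
    exact PH_nonneg ζ I h hImI n 0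
  · intro n
    by_cases hn : n = 0
    · subst hn
      simp
    · rw [if_neg hn, add_zero, hI]
      have := PH_bound ζ I h hImI n 0 (by simpa using hn)
      simpa using this

theorem main : S_SEPM := by
  classical
  intro ζ ζ₀ h h₀
  have hC := C1_pos ζ ζ₀ h h₀
  refine ⟨4 * C1 ζ ζ₀, by positivity, ?_⟩
  intro N A a hN hA
  have hNr : (0 : ℝ) < N := by exact_mod_cast hN
  have hne : ∀ n ∈ A, n - a ≠ 0 := by
    intro n hn h0
    have := hA n hn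
    rw [h0, abs_zero] at this
    omega
  refine ⟨⟨?_, ?_⟩, ?_, ?_⟩
  · intro n _
    unfold lat
    simpa using h
  · exact (summ ζ h).comp_injective Subtype.val_injective
  · unfold mu
    apply Real.tsum_le_of_sum_le (fun i : A => PH_nonneg ζ ζ₀ h h₀ i a)
    intro s
    calc ∑ i ∈ s, PH (lat ζ i) ((a : ℂ) + ζ₀)
        ≤ ∑ i ∈ s, C1 ζ ζ₀ * ((((i : ℤ) - a : ℤ) : ℝ) ^ 2)⁻¹ := by
          apply Finset.sum_le_sum
          intro i _
          exact PH_bound ζ ζ₀ h h₀ i a (hne i i.2)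
      _ = C1 ζ ζ₀ * ∑ m ∈ s.image (fun i : A => (i : ℤ) - a), (((m : ℤ) : ℝ) ^ 2)⁻¹ := by
          rw [← Finset.mul_sum, Finset.sum_image]
          intro i _ j _ hij
          apply Subtype.ext
          simpa using hij
      _ ≤ C1 ζ ζ₀ * (4 / N) := by
          apply mul_le_mul_of_nonneg_left _ hC.le
          apply sum_int N hN
          intro m hm
          rw [Finset.mem_image] at hm
          obtain ⟨i, _, rfl⟩ := hm
          exact hA i i.2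
      _ = 4 * C1 ζ ζ₀ / N := by ring
  · intro n hn
    have h1 := PH_bound ζ ζ₀ h h₀ n a (hne n hn)
    have h2 : (N : ℝ) ≤ ((n - a : ℤ) : ℝ) ^ 2 := by
      have h3 := hA n hn
      have h4 : (N : ℝ) ≤ |((n - a : ℤ) : ℝ)| := by exact_mod_cast h3
      have h5 : (1 : ℝ) ≤ N := by exact_mod_cast hN
      rw [← sq_abs]
      nlinarith
    calc PH (lat ζ n) ((a : ℂ) + ζ₀) ≤ C1 ζ ζ₀ * (((n - a : ℤ) : ℝ) ^ 2)⁻¹ := h1
      _ ≤ C1 ζ ζ₀ * (N : ℝ)⁻¹ := by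
          apply mul_le_mul_of_nonneg_left _ hC.le
          exact inv_anti₀ hNr h2
      _ ≤ 4 * C1 ζ ζ₀ / N := by
          rw [div_eq_mul_inv]
          apply mul_le_mul_of_nonneg_right _ (by positivity)
          linarith

end Pool.Agent.W237.GL.SEPM
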