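import Mathlib
import Pool.Agent.W744.GL.Stm

set_option autoImplicit false

/-!
# GL-UL2 (helper237)
-/

open Metric Set Filter Topology Complex

namespace Pool.Agent.W237.GL.UL2

open Pool.Agent.Helper503.Gp (HI IsChar)
open Pool.Agent.W744.GL

theorem lam_char (h : S_ULCH) (U : Ultrafilter ℤ) (ζ : ℂ) (hζ : 0 < ζ.im) :
    IsChar (lam U ζ) := by
  unfold lam
  apply (h.2 ℤ U (fun a : ℤ => pt ((a : ℂ) + ζ)) _).1
  intro a
  apply h.1
  simpa using hζ

theorem main (h : S_ULCH) : S_UL2 := by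
  classical
  intro U
  refine ⟨?_, ?_⟩
  · intro φ _ hCl
    set B : Finset (ℂ → ℂ) × {ε : ℝ // 0 < ε} → Set Up :=
      fun p => {ζ : Up | ∀ f ∈ p.1, ‖lam U ζ f - φ f‖ < p.2.1} with hB
    have hne : ∀ p, (B p).Nonempty := by
      intro p
      obtain ⟨ψ, ⟨ζ, hζ, rfl⟩, hψ⟩ := hCl p.1 p.2.1 p.2.2
      exact ⟨⟨ζ, hζ⟩, hψ⟩
    haveI : Nonempty (Finset (ℂ → ℂ) × {ε : ℝ // 0 < ε}) := ⟨(∅, ⟨1, one_pos⟩)⟩
    have hdir : Directed (· ≥ ·) (fun p => 𝓟 (B p)) := by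
      intro p q
      refine ⟨(p.1 ∪ q.1, ⟨min p.2.1 q.2.1, lt_min p.2.2 q.2.2⟩), ?_, ?_⟩
      · apply Filter.principal_mono.mpr
        intro ζ hζ f hf
        exact (hζ f (Finset.mem_union_left _ hf)).trans_le (min_le_left _ _)
      · apply Filter.principal_mono.mpr
        intro ζ hζ f hf
        exact (hζ f (Finset.mem_union_right _ hf)).trans_le (min_le_right _ _)
    haveI hNB : NeBot (⨅ p, 𝓟 (B p)) :=
      Filter.iInf_neBot_of_directed' hdir (fun p => Filter.principal_neBot_iff.mpr (hne p))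
    refine ⟨Ultrafilter.of (⨅ p, 𝓟 (B p)), ?_⟩
    have hle := Ultrafilter.of_le (⨅ p, 𝓟 (B p))
    funext f
    have ht : Tendsto (fun ζ : Up => lam U ζ f) (Ultrafilter.of (⨅ p, 𝓟 (B p))) (𝓝 (φ f)) := by
      rw [Metric.tendsto_nhds]
      intro ε hε
      have h1 : B ({f}, ⟨ε, hε⟩) ∈ (⨅ p, 𝓟 (B p)) :=
        Filter.mem_iInf_of_mem _ (Filter.mem_principal_self _)
      have h2 := hle h1
      apply Filter.mem_of_superset h2
      intro ζ hζ
      have := hζ f (Finset.mem_singleton_self f)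
      change dist (lam U ζ f) (φ f) < ε
      rw [dist_eq_norm]
      exact this
    exact (Tendsto.limUnder_eq ht).symm
  · intro W ξ hξ
    have him : ∀ ζ : Up, 0 < (mv ζ ξ).im := by
      intro ζ
      have := mul_pos ζ.2 hξ
      simpa [mv] using this
    have hch : ∀ ζ : Up, IsChar (lam U (mv ζ ξ)) := fun ζ => lam_char h U _ (him ζ)
    obtain ⟨h1, h2⟩ := h.2 Up W (fun ζ : Up => lam U (mv ζ ξ)) hch
    refine ⟨h1, ?_⟩
    intro s ε hε
    have h3 : ∀ᶠ ζ : Up in (W : Filter Up), ∀ f ∈ s,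
        ‖lam U (mv ζ ξ) f - ulim W (fun ζ : Up => lam U (mv ζ ξ)) f‖ < ε := by
      rw [Filter.eventually_all_finset]
      intro f _
      have := (Metric.tendsto_nhds.mp (h2 f)) ε hε
      simpa [dist_eq_norm] using this
    obtain ⟨ζ, hζ⟩ := h3.exists
    exact ⟨lam U (mv ζ ξ), ⟨mv ζ ξ, him ζ, rfl⟩, hζ⟩

end Pool.Agent.W237.GL.UL2
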